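import Pool.Agent.Q330.PHI.MonoMain

/-!
# Formulas and boundary edges (Khrapchenko's bound)
-/

set_option autoImplicit false

namespace Pool.Agent.Q330.PHI

open Finset

/-- Formulas with the gates AND and OR, whose leaves are arbitrary conditions on subsets of `X`. -/
inductive Fml (X : Type) : Type
  | leaf : (Finset X → Prop) → Fml X
  | and : Fml X → Fml X → Fml X
  | or : Fml X → Fml X → Fml X

/-- The value of a formula. -/
def Fml.Val {X : Type} : Fml X → Finset X → Prop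
  | .leaf u, A => u A
  | .and φ ψ, A => φ.Val A ∧ ψ.Val A
  | .or φ ψ, A => φ.Val A ∨ ψ.Val A

section

variable {X : Type} [Fintype X] [DecidableEq X]

/-- Change the membership of `z`. -/
def flip (A : Finset X) (z : X) : Finset X := symmDiff A {z}

open Classical in
/-- The largest number of the points of `D` at which the truth of the condition `u` can be destroyed. -/
noncomputable def sens1 (D : Finset X) (u : Finset X → Prop) : ℕ :=
  (univ.filter u).sup fun A => (D.filter fun z => ¬ u (flip A z)).card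

open Classical in
/-- The largest number of the points of `D` at which a set for which the condition `u` is false can be
changed such that it becomes true. -/
noncomputable def sens0 (D : Finset X) (u : Finset X → Prop) : ℕ :=
  (univ.filter fun A => ¬ u A).sup fun A => (D.filter fun z => u (flip A z)).card

/-- The cost of a formula: the sum of the products of the two sensitivities of the leaves; it is the
number of the leaves in `D` if the leaves are the conditions `z ∈ A` and `z ∉ A`. -/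
noncomputable def Fml.cost (D : Finset X) : Fml X → ℕ
  | .leaf u => sens1 D u * sens0 D u
  | .and φ ψ => φ.cost D + ψ.cost D
  | .or φ ψ => φ.cost D + ψ.cost D

/-- The pairs which differ in exactly one point, which is in `D`. -/
def prs (D : Finset X) (A B : Finset (Finset X)) : Finset (Finset X × Finset X) :=
  (A ×ˢ B).filter fun q => ∃ z ∈ D, q.2 = flip q.1 z

omit [Fintype X] in
theorem flip_flip (A : Finset X) (z : X) : flip (flip A z) z = A := by
  unfold flip
  exact symmDiff_symmDiff_cancel_right _ _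

theorem prs_left (D : Finset X) (A B : Finset (Finset X)) (u : Finset X → Prop)
    (hA : ∀ a ∈ A, u a) (hB : ∀ b ∈ B, ¬ u b) : (prs D A B).card ≤ A.card * sens1 D u := by
  classical
  have h1 : prs D A B ⊆ (A.sigma fun a => D.filter fun z => ¬ u (flip a z)).image
      (fun q => (q.1, flip q.1 q.2)) := by
    rintro ⟨a, b⟩ hq
    unfold prs at hq
    rw [mem_filter, mem_product] at hq
    obtain ⟨⟨ha, hb⟩, z, hz, h⟩ := hq
    simp only at ha hb h
    rw [mem_image]
    refine ⟨⟨a, z⟩, ?_, ?_⟩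
    · rw [mem_sigma, mem_filter]
      exact ⟨ha, hz, by rw [← h]; exact hB b hb⟩
    · simp only [h]
  refine (card_le_card h1).trans (card_image_le.trans ?_)
  rw [card_sigma, ← smul_eq_mul]
  refine sum_le_card_nsmul _ _ _ fun a ha => ?_
  unfold sens1
  exact le_sup (f := fun A => (D.filter fun z => ¬ u (flip A z)).card)
    (mem_filter.2 ⟨mem_univ _, hA a ha⟩)

theorem prs_right (D : Finset X) (A B : Finset (Finset X)) (u : Finset X → Prop)
    (hA : ∀ a ∈ A, u a) (hB : ∀ b ∈ B, ¬ u b) : (prs D A B).card ≤ B.card * sens0 D u := by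
  classical
  have h1 : prs D A B ⊆ (B.sigma fun b => D.filter fun z => u (flip b z)).image
      (fun q => (flip q.1 q.2, q.1)) := by
    rintro ⟨a, b⟩ hq
    unfold prs at hq
    rw [mem_filter, mem_product] at hq
    obtain ⟨⟨ha, hb⟩, z, hz, h⟩ := hq
    simp only at ha hb h
    have h2 : flip b z = a := by rw [h, flip_flip]
    rw [mem_image]
    refine ⟨⟨b, z⟩, ?_, ?_⟩
    · rw [mem_sigma, mem_filter]
      exact ⟨hb, hz, by rw [h2]; exact hA a ha⟩
    · simp only [h2]
  refine (card_le_card h1).trans (card_image_le.trans ?_)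
  rw [card_sigma, ← smul_eq_mul]
  refine sum_le_card_nsmul _ _ _ fun b hb => ?_
  unfold sens0
  exact le_sup (f := fun A => (D.filter fun z => u (flip A z)).card)
    (mem_filter.2 ⟨mem_univ _, hB b hb⟩)

theorem sq_add {h1 h2 l1 l2 a b1 b2 : ℕ} (e1 : h1 ^ 2 ≤ l1 * (a * b1))
    (e2 : h2 ^ 2 ≤ l2 * (a * b2)) : (h1 + h2) ^ 2 ≤ (l1 + l2) * (a * (b1 + b2)) := by
  have h3 : 2 * h1 * h2 ≤ l1 * (a * b2) + l2 * (a * b1) := by
    have h4 : (2 * h1 * h2) ^ 2 ≤ (l1 * (a * b2) + l2 * (a * b1)) ^ 2 := by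
      calc (2 * h1 * h2) ^ 2 = 4 * (h1 ^ 2 * h2 ^ 2) := by ring
        _ ≤ 4 * ((l1 * (a * b1)) * (l2 * (a * b2))) :=
          Nat.mul_le_mul_left _ (Nat.mul_le_mul e1 e2)
        _ = 4 * ((l1 * (a * b2)) * (l2 * (a * b1))) := by ring
        _ ≤ (l1 * (a * b2) + l2 * (a * b1)) ^ 2 := by
          have := four_mul_le_pow_two_add' (l1 * (a * b2)) (l2 * (a * b1))
          exact this
    exact (Nat.pow_le_pow_iff_left (by norm_num)).1 h4
  calc (h1 + h2) ^ 2 = h1 ^ 2 + 2 * h1 * h2 + h2 ^ 2 := by ring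
    _ ≤ l1 * (a * b1) + (l1 * (a * b2) + l2 * (a * b1)) + l2 * (a * b2) := by omega
    _ = _ := by ring
where
  four_mul_le_pow_two_add' (x y : ℕ) : 4 * (x * y) ≤ (x + y) ^ 2 := by
    have h : (4 * (x * y) : ℤ) ≤ (x + y : ℤ) ^ 2 := by nlinarith [sq_nonneg ((x : ℤ) - y)]
    exact_mod_cast h

theorem prs_union_right (D : Finset X) (A B : Finset (Finset X)) (p : Finset X → Prop)
    [DecidablePred p] :
    (prs D A B).card = (prs D A (B.filter p)).card + (prs D A (B.filter fun b => ¬ p b)).card := by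
  rw [← card_union_of_disjoint]
  · congr 1
    ext ⟨a, b⟩
    simp only [prs, mem_filter, mem_product, mem_union]
    constructor
    · rintro ⟨⟨h1, h2⟩, h3⟩
      by_cases h : p b
      · exact Or.inl ⟨⟨h1, h2, h⟩, h3⟩
      · exact Or.inr ⟨⟨h1, h2, h⟩, h3⟩
    · rintro (⟨⟨h1, h2, -⟩, h3⟩ | ⟨⟨h1, h2, -⟩, h3⟩) <;> exact ⟨⟨h1, h2⟩, h3⟩
  · rw [disjoint_left]
    rintro ⟨a, b⟩ h1 h2
    simp only [prs, mem_filter, mem_product] at h1 h2
    exact h2.1.2.2 h1.1.2.2

theorem prs_union_left (D : Finset X) (A B : Finset (Finset X)) (p : Finset X → Prop)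
    [DecidablePred p] :
    (prs D A B).card = (prs D (A.filter p) B).card + (prs D (A.filter fun b => ¬ p b) B).card := by
  rw [← card_union_of_disjoint]
  · congr 1
    ext ⟨a, b⟩
    simp only [prs, mem_filter, mem_product, mem_union]
    constructor
    · rintro ⟨⟨h1, h2⟩, h3⟩
      by_cases h : p a
      · exact Or.inl ⟨⟨⟨h1, h⟩, h2⟩, h3⟩
      · exact Or.inr ⟨⟨⟨h1, h⟩, h2⟩, h3⟩
    · rintro (⟨⟨⟨h1, -⟩, h2⟩, h3⟩ | ⟨⟨⟨h1, -⟩, h2⟩, h3⟩) <;> exact ⟨⟨h1, h2⟩, h3⟩
  · rw [disjoint_left]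
    rintro ⟨a, b⟩ h1 h2
    simp only [prs, mem_filter, mem_product] at h1 h2
    exact h2.1.1.2 h1.1.1.2

/-- **Khrapchenko's bound.** -/
theorem khrap (D : Finset X) (φ : Fml X) : ∀ A B : Finset (Finset X), (∀ a ∈ A, φ.Val a) →
    (∀ b ∈ B, ¬ φ.Val b) → (prs D A B).card ^ 2 ≤ φ.cost D * (A.card * B.card) := by
  classical
  induction φ with
  | leaf u =>
    intro A B hA hB
    have h1 := prs_left D A B u hA hB
    have h2 := prs_right D A B u hA hB
    calc (prs D A B).card ^ 2 = (prs D A B).card * (prs D A B).card := sq _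
      _ ≤ (A.card * sens1 D u) * (B.card * sens0 D u) := Nat.mul_le_mul h1 h2
      _ = sens1 D u * sens0 D u * (A.card * B.card) := by ring
  | and φ ψ ihφ ihψ =>
    intro A B hA hB
    rw [prs_union_right D A B fun b => ¬ φ.Val b]
    have h1 := ihφ A (B.filter fun b => ¬ φ.Val b) (fun a ha => (hA a ha).1)
      (fun b hb => (mem_filter.1 hb).2)
    have h2 := ihψ A (B.filter fun b => ¬ ¬ φ.Val b) (fun a ha => (hA a ha).2)
      (fun b hb h => by
        rw [mem_filter, not_not] at hb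
        exact hB b hb.1 ⟨hb.2, h⟩)
    have h3 := sq_add h1 h2
    rw [card_filter_add_card_filter_not] at h3
    exact h3
  | or φ ψ ihφ ihψ =>
    intro A B hA hB
    rw [prs_union_left D A B fun a => φ.Val a]
    have h1 := ihφ (A.filter fun a => φ.Val a) B (fun a ha => (mem_filter.1 ha).2)
      (fun b hb h => hB b hb (Or.inl h))
    have h2 := ihψ (A.filter fun a => ¬ φ.Val a) B
      (fun a ha => by
        rw [mem_filter] at ha
        rcases hA a ha.1 with h | h
        · exact absurd h ha.2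
        · exact h)
      (fun b hb h => hB b hb (Or.inr h))
    rw [mul_comm (card _) (card B)] at h1 h2
    have h3 := sq_add h1 h2
    rw [card_filter_add_card_filter_not, mul_comm B.card] at h3
    exact h3

omit [Fintype X] in
theorem flip_of_notMem {A : Finset X} {z : X} (h : z ∉ A) : flip A z = insert z A := by
  unfold flip
  ext x
  simp only [mem_symmDiff, mem_singleton, mem_insert]
  constructor
  · rintro (⟨h1, -⟩ | ⟨h1, -⟩)
    · exact Or.inr h1
    · exact Or.inl h1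
  · rintro (rfl | h1)
    · exact Or.inr ⟨rfl, h⟩
    · exact Or.inl ⟨h1, fun h2 => h (h2 ▸ h1)⟩

/-- The boundary edges are pairs. -/
theorem edg_le_prs (D : Finset X) (F : Finset (Finset X)) :
    ∑ z ∈ D, edg F z ≤ (prs D F (univ \ F)).card := by
  classical
  unfold edg
  rw [← card_sigma]
  refine card_le_card_of_injOn
    (fun q => if q.2 ∈ F then (q.2, insert q.1 q.2) else (insert q.1 q.2, q.2)) ?_ ?_
  · rintro ⟨z, A⟩ hq
    rw [mem_coe, mem_sigma, mem_filter] at hq
    obtain ⟨hz, -, hzA, hne⟩ := hq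
    simp only at hz hzA hne
    rw [mem_coe]
    unfold prs
    by_cases h : A ∈ F
    · simp only [h, if_true, mem_filter, mem_product, mem_sdiff, mem_univ, true_and]
      refine ⟨fun h' => hne ⟨fun _ => h', fun _ => h⟩, z, hz, ?_⟩
      rw [flip_of_notMem hzA]
    · simp only [h, if_false, mem_filter, mem_product, mem_sdiff, mem_univ, true_and,
        not_false_eq_true, and_true]
      refine ⟨?_, z, hz, ?_⟩
      · by_contra h'
        exact hne ⟨fun h'' => absurd h'' h, fun h'' => absurd h'' h'⟩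
      · rw [← flip_of_notMem hzA, flip_flip]
  · rintro ⟨z, A⟩ hq ⟨z', A'⟩ hq' hqq
    rw [mem_coe, mem_sigma, mem_filter] at hq hq'
    obtain ⟨-, -, hzA, hne⟩ := hq
    obtain ⟨-, -, hzA', hne'⟩ := hq'
    simp only at hzA hzA' hne hne' hqq
    have key : ∀ {z z' : X} {A : Finset X}, z ∉ A → z' ∉ A → insert z A = insert z' A → z = z' := by
      intro z z' A h1 h2 h3
      have : z ∈ insert z' A := by rw [← h3]; exact mem_insert_self _ _
      rcases mem_insert.1 this with h | h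
      · exact h
      · exact absurd h h1
    by_cases h : A ∈ F
    · by_cases h' : A' ∈ F
      · rw [if_pos h, if_pos h', Prod.mk.injEq] at hqq
        obtain ⟨h1, h2⟩ := hqq
        subst h1
        rw [key hzA hzA' h2]
      · rw [if_pos h, if_neg h', Prod.mk.injEq] at hqq
        obtain ⟨h1, h2⟩ := hqq
        exfalso
        have h3 : z ∈ A' := by rw [← h2]; exact mem_insert_self _ _
        have h4 : z ∈ A := by rw [h1]; exact mem_insert_of_mem h3
        exact hzA h4
    · by_cases h' : A' ∈ F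
      · rw [if_neg h, if_pos h', Prod.mk.injEq] at hqq
        obtain ⟨h1, h2⟩ := hqq
        exfalso
        have h3 : z ∈ A' := by rw [← h1]; exact mem_insert_self _ _
        have h4 : z ∈ A := by rw [h2]; exact mem_insert_of_mem h3
        exact hzA h4
      · rw [if_neg h, if_neg h', Prod.mk.injEq] at hqq
        obtain ⟨h1, h2⟩ := hqq
        subst h2
        rw [key hzA hzA' h1]

/-- The boundary edges of a family which is decided by a formula. -/
theorem edg_formula (D : Finset X) (φ : Fml X) (F : Finset (Finset X))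
    (hF : ∀ A, A ∈ F ↔ φ.Val A) :
    (∑ z ∈ D, (edg F z : ℝ)) ≤ Real.sqrt (φ.cost D) / 2 * 2 ^ Fintype.card X := by
  have h1 := khrap D φ F (univ \ F) (fun a ha => (hF a).1 ha)
    (fun b hb h => (mem_sdiff.1 hb).2 ((hF b).2 h))
  have h2 : (univ \ F).card + F.card = 2 ^ Fintype.card X := by
    rw [card_sdiff_add_card_eq_card (subset_univ F), card_univ, Fintype.card_finset]
  have h3 : 4 * (F.card * (univ \ F).card) ≤ (2 ^ Fintype.card X) ^ 2 := by
    rw [← h2]
    have h : (4 * (F.card * (univ \ F).card) : ℤ) ≤ ((univ \ F).card + F.card : ℤ) ^ 2 := by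
      nlinarith [sq_nonneg ((F.card : ℤ) - (univ \ F).card)]
    exact_mod_cast h
  have h4 : ((∑ z ∈ D, edg F z : ℕ) : ℝ) ≤ (prs D F (univ \ F)).card := by
    exact_mod_cast edg_le_prs D F
  have h5 : ((prs D F (univ \ F)).card : ℝ) ≤
      Real.sqrt (φ.cost D) / 2 * 2 ^ Fintype.card X := by
    refine le_of_sq_le_sq ?_ (by positivity)
    have e1 : (Real.sqrt (φ.cost D) / 2 * 2 ^ Fintype.card X) ^ 2 =
        (φ.cost D : ℝ) * ((2 ^ Fintype.card X) ^ 2 / 4) := by
      rw [mul_pow, div_pow, Real.sq_sqrt (Nat.cast_nonneg _)]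
      ring
    rw [e1]
    have h6 : ((prs D F (univ \ F)).card : ℝ) ^ 2 ≤
        (φ.cost D : ℝ) * ((F.card : ℝ) * (univ \ F).card) := by exact_mod_cast h1
    have h7 : (4 : ℝ) * ((F.card : ℝ) * (univ \ F).card) ≤ (2 ^ Fintype.card X) ^ 2 := by
      exact_mod_cast h3
    have h8 : ((F.card : ℝ) * (univ \ F).card) ≤ (2 ^ Fintype.card X) ^ 2 / 4 := by linarith
    have h9 : (0 : ℝ) ≤ φ.cost D := Nat.cast_nonneg _
    exact h6.trans (mul_le_mul_of_nonneg_left h8 h9)
  push_cast at h4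
  exact h4.trans h5

end

variable {d N m : ℕ}

/-- **Families decided by formulas.** -/
theorem form_main {r : ℕ} (hd : 1 ≤ d) (hm : 1 ≤ m) (hmN : m ≤ N)
    (hr : ∀ B : Finset (Finset (Fin d → Fin m)), ¬ Good B → B.card ≤ r)
    (φ : Fml (Fin d → Fin N)) {lam : ℝ} (hlam : 0 ≤ lam)
    (hφ : ∀ j, 1 ≤ j → j ≤ d → (φ.cost (cls d N j) : ℝ) ≤ (lam * (N : ℝ) ^ j) ^ 2)
    {F S : Finset (Finset (Fin d → Fin N))} (hF : ∀ A, A ∈ F ↔ φ.Val A)
    (hSF : S ⊆ F) (hS : ¬ Good S) :
    (S.card : ℝ) ≤ r / 2 ^ (m ^ d) * F.card + r * (lam * (d * (2 * m) ^ d / 2)) * 2 ^ (N ^ d) := by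
  have hn : 1 ≤ N / m := (Nat.one_le_div_iff (by omega)).2 hmN
  have h := relative (d := d) (N := N) (m := m) (n := N / m) (Nat.mul_div_le N m) hn hr hSF hS
  refine h.trans ?_
  have hmR : (1 : ℝ) ≤ m := by exact_mod_cast hm
  have hNR : (1 : ℝ) ≤ N := by exact_mod_cast (hm.trans hmN)
  have hq := quot_ge hm hmN
  have hq0 : (0 : ℝ) < N / (2 * m) := by positivity
  have hn0 : (0 : ℝ) < ((N / m : ℕ) : ℝ) := lt_of_lt_of_le hq0 hq
  have h1 : ∑ z, (edg F z : ℝ) / (((N / m : ℕ) : ℝ)) ^ wid z ≤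
      lam * (d * (2 * m) ^ d / 2) * 2 ^ (N ^ d) := by
    rw [sum_classes hd]
    have h2 : ∀ j ∈ Icc 1 d, (∑ z ∈ cls d N j, (edg F z : ℝ)) / (((N / m : ℕ) : ℝ)) ^ j ≤
        lam / 2 * 2 ^ (N ^ d) * (2 * m : ℝ) ^ d := by
      intro j hj
      rw [mem_Icc] at hj
      rw [div_le_iff₀ (by positivity)]
      refine (edg_formula (cls d N j) φ F hF).trans ?_
      have h4 : Fintype.card (Fin d → Fin N) = N ^ d := by
        rw [Fintype.card_fun, Fintype.card_fin, Fintype.card_fin]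
      rw [h4]
      have h5 : Real.sqrt (φ.cost (cls d N j)) ≤ lam * (N : ℝ) ^ j := by
        rw [Real.sqrt_le_left (by positivity)]
        exact hφ j hj.1 hj.2
      have h6 : (N : ℝ) ^ j ≤ (2 * m : ℝ) ^ d * (((N / m : ℕ) : ℝ)) ^ j := by
        have h7 : ((N : ℝ) / (2 * m)) ^ j ≤ ((N / m : ℕ) : ℝ) ^ j :=
          pow_le_pow_left₀ hq0.le hq j
        rw [div_pow, div_le_iff₀ (by positivity)] at h7
        have h8 : (2 * m : ℝ) ^ j ≤ (2 * m : ℝ) ^ d := pow_le_pow_right₀ (by linarith) hj.2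
        calc (N : ℝ) ^ j ≤ ((N / m : ℕ) : ℝ) ^ j * (2 * m : ℝ) ^ j := h7
          _ ≤ ((N / m : ℕ) : ℝ) ^ j * (2 * m : ℝ) ^ d := by gcongr
          _ = _ := mul_comm _ _
      calc Real.sqrt (φ.cost (cls d N j)) / 2 * 2 ^ (N ^ d) ≤
          lam * (N : ℝ) ^ j / 2 * 2 ^ (N ^ d) := by gcongr
        _ ≤ lam * ((2 * m : ℝ) ^ d * (((N / m : ℕ) : ℝ)) ^ j) / 2 * 2 ^ (N ^ d) := by gcongr
        _ = _ := by ring
    refine (sum_le_sum h2).trans ?_
    rw [sum_const, Nat.card_Icc, nsmul_eq_mul, Nat.add_sub_cancel]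
    exact le_of_eq (by ring)
  calc _ ≤ r / 2 ^ (m ^ d) * F.card + r * (lam * (d * (2 * m) ^ d / 2) * 2 ^ (N ^ d)) := by
        gcongr
    _ = _ := by ring

/-- **Families decided by formulas, known densities.** -/
theorem form_known (d : ℕ) (hd : 1 ≤ d) (δ : ℝ) (hδ : threshold d < δ) :
    ∃ C : ℝ, ∀ N : ℕ, 1 ≤ N → ∀ (φ : Fml (Fin d → Fin N)) (lam : ℝ), 0 ≤ lam →
      (∀ j, 1 ≤ j → j ≤ d → (φ.cost (cls d N j) : ℝ) ≤ (lam * (N : ℝ) ^ j) ^ 2) →
      ∀ F S : Finset (Finset (Fin d → Fin N)), (∀ A, A ∈ F ↔ φ.Val A) → S ⊆ F →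
      δ * F.card + C * (lam + 1 / N) * 2 ^ (N ^ d) < S.card → Good S := by
  obtain ⟨m, r, hm, hr, hrδ⟩ := small_cube d hd δ hδ
  obtain ⟨C₁, hC₁⟩ : ∃ C₁ : ℝ, C₁ = r * (d * (2 * m) ^ d / 2) := ⟨_, rfl⟩
  have hC₁0 : 0 ≤ C₁ := by rw [hC₁]; positivity
  have hδ0 : 0 ≤ δ := (threshold_nonneg d hd).trans hδ.le
  have hmR : (0 : ℝ) ≤ m := Nat.cast_nonneg _
  refine ⟨C₁ + m, fun N hN φ lam hlam hφ F S hF hSF hS => ?_⟩
  have hNR : (1 : ℝ) ≤ N := by exact_mod_cast hN
  have hN0 : (0 : ℝ) < N := by linarith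
  have hinv : (0 : ℝ) ≤ 1 / N := by positivity
  by_contra hcon
  rcases Nat.lt_or_ge N m with hNm | hNm
  · have h1 : (S.card : ℝ) ≤ 2 ^ (N ^ d) := by
      have h2 := card_le_univ S
      rw [Fintype.card_finset, Fintype.card_fun, Fintype.card_fin, Fintype.card_fin] at h2
      exact_mod_cast h2
    have h4 : (N : ℝ) ≤ m := by exact_mod_cast hNm.le
    have h3 : 1 ≤ (m : ℝ) * (1 / N) := by
      rw [mul_one_div, le_div_iff₀ hN0, one_mul]
      exact h4
    have h5 : 1 ≤ (C₁ + m) * (lam + 1 / N) := by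
      have e1 : 0 ≤ C₁ * (lam + 1 / N) := mul_nonneg hC₁0 (by linarith)
      have e2 : 0 ≤ (m : ℝ) * lam := mul_nonneg hmR hlam
      nlinarith
    have h6 : (0 : ℝ) ≤ δ * F.card := by positivity
    have h7 : (2 : ℝ) ^ (N ^ d) ≤ (C₁ + m) * (lam + 1 / N) * 2 ^ (N ^ d) :=
      le_mul_of_one_le_left (by positivity) h5
    linarith
  · have h := form_main hd hm hNm hr φ hlam hφ hF hSF hcon
    have h1 : (r : ℝ) / 2 ^ (m ^ d) * F.card ≤ δ * F.card := by gcongr
    have h2 : (r : ℝ) * (lam * (d * (2 * m) ^ d / 2)) ≤ (C₁ + m) * (lam + 1 / N) := by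
      have e : (r : ℝ) * (lam * (d * (2 * m) ^ d / 2)) = C₁ * lam := by rw [hC₁]; ring
      rw [e]
      have e1 : 0 ≤ C₁ * (1 / N) := mul_nonneg hC₁0 hinv
      have e2 : 0 ≤ (m : ℝ) * (lam + 1 / N) := mul_nonneg hmR (by linarith)
      nlinarith
    have h3 : (r : ℝ) * (lam * (d * (2 * m) ^ d / 2)) * 2 ^ (N ^ d) ≤
        (C₁ + m) * (lam + 1 / N) * 2 ^ (N ^ d) := by gcongr
    linarith

end Pool.Agent.Q330.PHI
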