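import Pool.Agent.Q330.PHI.Lit

/-!
# More than half of a family with few boundary edges; the parity family
-/

set_option autoImplicit false

namespace Pool.Agent.Q330.PHI

open Finset

section

variable {X : Type} [Fintype X] [DecidableEq X]

omit [Fintype X] in
theorem flip_of_mem {A : Finset X} {z : X} (h : z ∈ A) : flip A z = A.erase z := by
  ext x
  rw [mem_flip, mem_erase]
  constructor
  · intro h1
    by_cases hx : x = z
    · subst hx
      exact absurd rfl (h1.1 h)
    · exact ⟨hx, h1.2 hx⟩
  · rintro ⟨h1, h2⟩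
    exact ⟨fun _ => h1, fun _ => h2⟩

/-- A family without edges in the directions of `D`. -/
theorem half_nat (D : Finset X) {F S : Finset (Finset X)} (hSF : S ⊆ F)
    (hS : ∀ A ∈ S, ∀ z ∈ D, z ∉ A → insert z A ∉ S) :
    2 * S.card * D.card ≤ F.card * D.card + ∑ z ∈ D, edg F z := by
  classical
  have hflip : ∀ A ∈ S, ∀ z ∈ D, flip A z ∉ S := by
    intro A hA z hz h
    by_cases hzA : z ∈ A
    · refine hS (flip A z) h z hz ?_ ?_
      · rw [flip_of_mem hzA]
        exact notMem_erase _ _
      · rw [flip_of_mem hzA, insert_erase hzA]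
        exact hA
    · rw [flip_of_notMem hzA] at h
      exact hS A hA z hz hzA h
  have h0 : ((S ×ˢ D).filter fun q => flip q.1 q.2 ∈ F).card +
      ((S ×ˢ D).filter fun q => ¬ flip q.1 q.2 ∈ F).card = S.card * D.card := by
    rw [card_filter_add_card_filter_not, card_product]
  have h1 : ((S ×ˢ D).filter fun q => flip q.1 q.2 ∈ F).card ≤ (F \ S).card * D.card := by
    rw [← card_product]
    refine card_le_card_of_injOn (fun q => (flip q.1 q.2, q.2)) ?_ ?_
    · rintro ⟨A, z⟩ hq
      rw [mem_coe, mem_filter, mem_product] at hq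
      rw [mem_coe, mem_product, mem_sdiff]
      exact ⟨⟨hq.2, hflip A hq.1.1 z hq.1.2⟩, hq.1.2⟩
    · rintro ⟨A, z⟩ _ ⟨B, w⟩ _ hAB
      simp only [Prod.mk.injEq] at hAB
      obtain ⟨h1, rfl⟩ := hAB
      rw [← flip_flip A z, h1, flip_flip]
  have h2 : ((S ×ˢ D).filter fun q => ¬ flip q.1 q.2 ∈ F).card ≤ ∑ z ∈ D, edg F z := by
    unfold edg
    rw [← card_sigma]
    refine card_le_card_of_injOn (fun q => ⟨q.2, q.1.erase q.2⟩) ?_ ?_
    · rintro ⟨A, z⟩ hq
      rw [mem_coe, mem_filter, mem_product] at hq
      obtain ⟨⟨hA, hz⟩, hq2⟩ := hq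
      simp only at hA hz hq2
      rw [mem_coe, mem_sigma, mem_filter]
      refine ⟨hz, mem_univ _, notMem_erase _ _, ?_⟩
      have hAF := hSF hA
      simp only
      by_cases hzA : z ∈ A
      · rw [flip_of_mem hzA] at hq2
        rw [insert_erase hzA]
        exact fun h => hq2 (h.2 hAF)
      · rw [flip_of_notMem hzA] at hq2
        rw [erase_eq_of_notMem hzA]
        exact fun h => hq2 (h.1 hAF)
    · rintro ⟨A, z⟩ hA ⟨B, w⟩ hB hAB
      rw [mem_coe, mem_filter, mem_product] at hA hB
      have hzw : z = w := congrArg Sigma.fst hAB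
      subst hzw
      have h3 : A.erase z = B.erase z := by
        have := congrArg (fun q : (_ : X) × Finset X => q.2) hAB
        exact this
      have h4 : A = B := by
        by_cases hzA : z ∈ A
        · by_cases hzB : z ∈ B
          · rw [← insert_erase hzA, h3, insert_erase hzB]
          · exfalso
            rw [erase_eq_of_notMem hzB] at h3
            refine hS B hB.1.1 z hB.1.2 hzB ?_
            rw [← h3, insert_erase hzA]
            exact hA.1.1
        · by_cases hzB : z ∈ B
          · exfalso
            rw [erase_eq_of_notMem hzA] at h3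
            refine hS A hA.1.1 z hA.1.2 hzA ?_
            rw [h3, insert_erase hzB]
            exact hB.1.1
          · rw [erase_eq_of_notMem hzA, erase_eq_of_notMem hzB] at h3
            exact h3
      rw [h4]
  have h4 : (F \ S).card + S.card = F.card := card_sdiff_add_card_eq_card hSF
  have h5 : (F \ S).card * D.card + S.card * D.card = F.card * D.card := by
    rw [← add_mul, h4]
  have e : 2 * S.card * D.card = S.card * D.card + S.card * D.card := by ring
  omega

/-- More than half of a family which is decided by a formula. -/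
theorem half_main (D : Finset X) (hD : 1 ≤ D.card) (φ : Fml X) {F S : Finset (Finset X)}
    (hF : ∀ A, A ∈ F ↔ φ.Val A) (hSF : S ⊆ F)
    (hS : (F.card : ℝ) / 2 + Real.sqrt (φ.cost D) / (4 * D.card) * 2 ^ Fintype.card X < S.card) :
    ∃ A ∈ S, ∃ z ∈ D, z ∉ A ∧ insert z A ∈ S := by
  by_contra hcon
  push Not at hcon
  have h1 := half_nat D hSF hcon
  have h2 := edg_formula D φ F hF
  have hD0 : (0 : ℝ) < D.card := by exact_mod_cast hD
  have h3 : (2 : ℝ) * S.card * D.card ≤ F.card * D.card + ∑ z ∈ D, (edg F z : ℝ) := by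
    exact_mod_cast h1
  have h4 : (2 : ℝ) * S.card * D.card ≤ F.card * D.card +
      Real.sqrt (φ.cost D) / 2 * 2 ^ Fintype.card X := by linarith
  have h5 : (S.card : ℝ) ≤ (F.card : ℝ) / 2 +
      Real.sqrt (φ.cost D) / (4 * D.card) * 2 ^ Fintype.card X := by
    have e : (F.card : ℝ) / 2 + Real.sqrt (φ.cost D) / (4 * D.card) * 2 ^ Fintype.card X =
        (F.card * D.card + Real.sqrt (φ.cost D) / 2 * 2 ^ Fintype.card X) / (2 * D.card) := by
      field_simp
      ring
    rw [e, le_div_iff₀ (by positivity)]
    linarith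
  linarith

/-! ### Parity -/

/-- The formulas for the parity of the number of the points `x a, …, x (a + 2 ^ t - 1)` in `A`:
odd (`true`) and even (`false`). -/
def parity (x : ℕ → X) : ℕ → ℕ → Bool → Fml X
  | 0, a, true => .leaf fun A => x a ∈ A
  | 0, a, false => .leaf fun A => x a ∉ A
  | t + 1, a, true => .or (.and (parity x t a true) (parity x t (a + 2 ^ t) false))
      (.and (parity x t a false) (parity x t (a + 2 ^ t) true))
  | t + 1, a, false => .or (.and (parity x t a true) (parity x t (a + 2 ^ t) true))
      (.and (parity x t a false) (parity x t (a + 2 ^ t) false))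

theorem parity_cost (x : ℕ → X) (D : Finset X) : ∀ (t a : ℕ) (b : Bool),
    (parity x t a b).cost D ≤ 4 ^ t := by
  intro t
  induction t with
  | zero =>
    intro a b
    cases b with
    | true =>
      refine (cost_pos D (x a)).trans ?_
      split_ifs <;> norm_num
    | false =>
      refine (cost_neg D (x a)).trans ?_
      split_ifs <;> norm_num
  | succ t ih =>
    intro a b
    have h1 := ih a true
    have h2 := ih a false
    have h3 := ih (a + 2 ^ t) true
    have h4 := ih (a + 2 ^ t) false
    rw [pow_succ]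
    cases b <;> simp only [parity, Fml.cost] <;> omega

/-- The number of the points. -/
def cnt (x : ℕ → X) (t a : ℕ) (A : Finset X) : ℕ :=
  ∑ i ∈ range (2 ^ t), if x (a + i) ∈ A then 1 else 0

omit [Fintype X] in
theorem cnt_succ (x : ℕ → X) (t a : ℕ) (A : Finset X) :
    cnt x (t + 1) a A = cnt x t a A + cnt x t (a + 2 ^ t) A := by
  unfold cnt
  have e : 2 ^ (t + 1) = 2 ^ t + 2 ^ t := by rw [pow_succ]; ring
  rw [e, sum_range_add]
  congr 1
  refine sum_congr rfl fun i _ => ?_
  rw [add_assoc]

omit [Fintype X] in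
theorem parity_val (x : ℕ → X) (A : Finset X) : ∀ (t a : ℕ),
    ((parity x t a true).Val A ↔ cnt x t a A % 2 = 1) ∧
    ((parity x t a false).Val A ↔ cnt x t a A % 2 = 0) := by
  intro t
  induction t with
  | zero =>
    intro a
    simp only [parity, Fml.Val, cnt, pow_zero, range_one, sum_singleton, add_zero]
    by_cases h : x a ∈ A <;> simp [h]
  | succ t ih =>
    intro a
    have h1 := ih a
    have h2 := ih (a + 2 ^ t)
    rw [cnt_succ]
    simp only [parity, Fml.Val, h1.1, h1.2, h2.1, h2.2]
    constructor <;> omega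

end

end Pool.Agent.Q330.PHI
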