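import Pool.Agent.Q330.PHI.Form

/-!
# The cost of literals
-/

set_option autoImplicit false

namespace Pool.Agent.Q330.PHI

open Finset

variable {X : Type} [Fintype X] [DecidableEq X]

omit [Fintype X] in
theorem mem_flip {A : Finset X} {z z' : X} : z ∈ flip A z' ↔ (z ∈ A ↔ z ≠ z') := by
  unfold flip
  simp only [mem_symmDiff, mem_singleton]
  tauto

/-- Conditions which depend on one point cost at most one. -/
theorem cost_one (D : Finset X) (z : X) (u : Finset X → Prop)
    (hu : ∀ A z', z' ≠ z → (u (flip A z') ↔ u A)) :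
    (Fml.leaf u).cost D ≤ if z ∈ D then 1 else 0 := by
  classical
  have h1 : sens1 D u ≤ if z ∈ D then 1 else 0 := by
    unfold sens1
    refine Finset.sup_le fun A hA => ?_
    have hz : u A := (mem_filter.1 hA).2
    have h2 : (D.filter fun z' => ¬ u (flip A z')) ⊆ if z ∈ D then {z} else ∅ := by
      intro z' hz'
      rw [mem_filter] at hz'
      have h3 : z' = z := by
        by_contra h
        exact hz'.2 ((hu A z' h).2 hz)
      subst h3
      rw [if_pos hz'.1]
      exact mem_singleton_self _
    refine (card_le_card h2).trans ?_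
    split_ifs <;> simp
  have h0 : sens0 D u ≤ if z ∈ D then 1 else 0 := by
    unfold sens0
    refine Finset.sup_le fun A hA => ?_
    have hz : ¬ u A := (mem_filter.1 hA).2
    have h2 : (D.filter fun z' => u (flip A z')) ⊆ if z ∈ D then {z} else ∅ := by
      intro z' hz'
      rw [mem_filter] at hz'
      have h3 : z' = z := by
        by_contra h
        exact hz ((hu A z' h).1 hz'.2)
      subst h3
      rw [if_pos hz'.1]
      exact mem_singleton_self _
    refine (card_le_card h2).trans ?_
    split_ifs <;> simp
  change sens1 D u * sens0 D u ≤ _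
  split_ifs at * with h
  · exact Nat.mul_le_mul h1 h0
  · exact Nat.mul_le_mul h1 h0

theorem cost_pos (D : Finset X) (z : X) :
    (Fml.leaf fun A => z ∈ A).cost D ≤ if z ∈ D then 1 else 0 := by
  refine cost_one D z _ fun A z' h => ?_
  rw [mem_flip]
  exact ⟨fun h1 => h1.2 (Ne.symm h), fun h1 => ⟨fun _ => Ne.symm h, fun _ => h1⟩⟩

theorem cost_neg (D : Finset X) (z : X) :
    (Fml.leaf fun A => z ∉ A).cost D ≤ if z ∈ D then 1 else 0 := by
  refine cost_one D z _ fun A z' h => ?_
  rw [mem_flip]
  have h2 : z ≠ z' := Ne.symm h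
  tauto

/-- Conditions which do not depend on `D` are free. -/
theorem cost_free (D : Finset X) (u : Finset X → Prop)
    (hu : ∀ A z, z ∈ D → (u (flip A z) ↔ u A)) : (Fml.leaf u).cost D = 0 := by
  classical
  have h1 : sens1 D u ≤ 0 := by
    unfold sens1
    refine Finset.sup_le fun A hA => ?_
    rw [Nat.le_zero, card_eq_zero, filter_eq_empty_iff]
    intro z hz h
    exact h ((hu A z hz).2 (mem_filter.1 hA).2)
  change sens1 D u * sens0 D u = 0
  rw [Nat.le_zero.1 h1, zero_mul]

end Pool.Agent.Q330.PHI
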