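import Pool.Agent.Q330.PHI.Trans
import Pool.Agent.Q330.MHJ.Main

/-!
# Combinations of monotone families: the number of boundary edges
-/

set_option autoImplicit false

namespace Pool.Agent.Q330.PHI

open Finset Pool.Agent.Q330.MHJ

variable {d N m n : ℕ}

/-- The cells with `j` distinct coordinates. -/
def cls (d N j : ℕ) : Finset (Fin d → Fin N) := univ.filter fun z => wid z = j

theorem card_cls (d N j : ℕ) : (cls d N j).card ≤ j ^ d * N ^ j := by
  classical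
  have h : Fintype.card ((Fin d → Fin j) × (Fin j → Fin N)) = j ^ d * N ^ j := by
    rw [Fintype.card_prod, Fintype.card_fun, Fintype.card_fun]
    simp only [Fintype.card_fin]
  rw [← h, ← card_univ]
  refine (card_le_card (t := univ.image fun q : (Fin d → Fin j) × (Fin j → Fin N) =>
    fun t => q.2 (q.1 t)) fun z hz => ?_).trans card_image_le
  have hw : (univ.image z).card = j := (mem_filter.1 hz).2
  rw [mem_image]
  let e := (univ.image z).equivFinOfCardEq hw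
  refine ⟨(fun t => e ⟨z t, mem_image_of_mem _ (mem_univ _)⟩, fun s => (e.symm s).1),
    mem_univ _, ?_⟩
  funext t
  simp

theorem wid_pos (hd : 1 ≤ d) (z : Fin d → Fin N) : 1 ≤ wid z :=
  card_pos.2 ⟨z ⟨0, hd⟩, mem_image_of_mem _ (mem_univ _)⟩

theorem wid_le (z : Fin d → Fin N) : wid z ≤ d := by
  refine card_image_le.trans ?_
  rw [card_univ, Fintype.card_fin]

/-- The sum over the classes. -/
theorem sum_classes (hd : 1 ≤ d) (F : Finset (Finset (Fin d → Fin N))) (n : ℕ) :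
    ∑ z, (edg F z : ℝ) / (n : ℝ) ^ wid z =
      ∑ j ∈ Icc 1 d, (∑ z ∈ cls d N j, (edg F z : ℝ)) / (n : ℝ) ^ j := by
  rw [← sum_fiberwise_of_maps_to (s := univ) (t := Icc 1 d) (g := wid)
    (fun z _ => mem_Icc.2 ⟨wid_pos hd z, wid_le z⟩)]
  refine sum_congr rfl fun j _ => ?_
  rw [sum_div]
  refine sum_congr rfl fun z hz => ?_
  rw [(mem_filter.1 hz).2]

variable {X : Type} [Fintype X] [DecidableEq X]

theorem bd_real (D : Finset X) (U : Finset X → Prop)
    (hU : ∀ A, ∀ x ∈ D, U A → U (insert x A)) :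
    (bd D U : ℝ) ≤ Real.sqrt D.card / 2 * 2 ^ Fintype.card X := by
  have h := bd_le D U hU
  rw [bd_maj] at h
  obtain ⟨s, hs⟩ : ∃ s, s = D.card := ⟨_, rfl⟩
  have hsX : s ≤ Fintype.card X := hs ▸ card_le_univ D
  rw [← hs] at h ⊢
  rcases Nat.eq_zero_or_pos s with h0 | hpos
  · subst h0
    have : bd D U = 0 := by simpa using h
    rw [this]
    simp
  have h1 : (s - 1).choose (s / 2) * s = s.choose (s / 2) * (s - s / 2) := by
    have := Nat.choose_mul_succ_eq (s - 1) (s / 2)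
    rw [Nat.sub_add_cancel hpos] at this
    exact this
  have h2 : (s - s / 2) * (s.choose (s / 2) * 2 ^ (Fintype.card X - s)) =
      s * ((s - 1).choose (s / 2)) * 2 ^ (Fintype.card X - s) := by
    calc (s - s / 2) * (s.choose (s / 2) * 2 ^ (Fintype.card X - s)) =
        (s.choose (s / 2) * (s - s / 2)) * 2 ^ (Fintype.card X - s) := by ring
      _ = _ := by rw [← h1]; ring
  rw [h2] at h
  have hsR : (0 : ℝ) < s := by exact_mod_cast hpos
  have hq : 0 < Real.sqrt s := Real.sqrt_pos.2 hsR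
  have h3 := mid_sq s hpos
  have h4 : (((s - 1).choose (s / 2) : ℕ) : ℝ) * Real.sqrt s ≤ 2 ^ (s - 1) := by
    refine le_of_sq_le_sq ?_ (by positivity)
    rw [mul_pow, Real.sq_sqrt hsR.le]
    calc ((((s - 1).choose (s / 2) : ℕ) : ℝ)) ^ 2 * (s : ℝ) ≤ 4 ^ (s - 1) := by exact_mod_cast h3
      _ = (2 ^ (s - 1)) ^ 2 := by
        rw [show (4 : ℝ) = 2 ^ 2 by norm_num, ← pow_mul, ← pow_mul, mul_comm]
  have h5 : (bd D U : ℝ) ≤ s * ((s - 1).choose (s / 2) : ℕ) * 2 ^ (Fintype.card X - s) := by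
    exact_mod_cast h
  have h6 : (2 : ℝ) ^ Fintype.card X = 2 * (2 ^ (s - 1) * 2 ^ (Fintype.card X - s)) := by
    rw [← pow_add, ← pow_succ']
    congr 1
    omega
  calc (bd D U : ℝ) ≤ s * ((s - 1).choose (s / 2) : ℕ) * 2 ^ (Fintype.card X - s) := h5
    _ = Real.sqrt s * ((((s - 1).choose (s / 2) : ℕ) : ℝ) * Real.sqrt s) *
        2 ^ (Fintype.card X - s) := by
      nth_rw 1 [← Real.mul_self_sqrt hsR.le]
      ring
    _ ≤ Real.sqrt s * 2 ^ (s - 1) * 2 ^ (Fintype.card X - s) := by gcongr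
    _ = Real.sqrt s / 2 * 2 ^ Fintype.card X := by rw [h6]; ring

/-- The boundary edges of a combination of monotone families. -/
theorem edg_comb {k : ℕ} (D : Finset X) (U : Fin k → Finset X → Prop)
    (hU : ∀ i A x, U i A → U i (insert x A)) (R : (Fin k → Prop) → Prop)
    (F : Finset (Finset X)) (hF : ∀ A, A ∈ F ↔ R fun i => U i A) :
    (∑ z ∈ D, (edg F z : ℝ)) ≤ k * (Real.sqrt D.card / 2 * 2 ^ Fintype.card X) := by
  classical
  have h1 : ∑ z ∈ D, edg F z ≤ ∑ i : Fin k, bd D (U i) := by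
    unfold edg
    rw [← card_sigma]
    refine le_trans ?_ (card_biUnion_le (s := (univ : Finset (Fin k)))
      (t := fun i => (outs D).filter fun q => ¬ U i q.1 ∧ U i (insert q.2 q.1)))
    refine card_le_card_of_injOn (fun q => (q.2, q.1)) ?_ ?_
    · rintro ⟨z, A⟩ hq
      rw [mem_coe, mem_sigma, mem_filter] at hq
      obtain ⟨hz, -, hzA, hne⟩ := hq
      simp only at hz hzA hne
      rw [mem_coe, mem_biUnion]
      rw [hF, hF] at hne
      have : ∃ i, ¬ (U i A ↔ U i (insert z A)) := by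
        by_contra hcon
        push Not at hcon
        apply hne
        have : (fun i => U i A) = fun i => U i (insert z A) := by
          funext i
          exact propext (hcon i)
        rw [this]
      obtain ⟨i, hi⟩ := this
      refine ⟨i, mem_univ _, ?_⟩
      rw [mem_filter]
      refine ⟨?_, ?_, ?_⟩
      · unfold outs
        rw [mem_filter]
        exact ⟨mem_univ _, hz, hzA⟩
      · intro h
        exact hi ⟨fun _ => hU i A z h, fun _ => h⟩
      · by_contra h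
        exact hi ⟨fun h' => hU i A z h', fun h' => absurd h' h⟩
    · rintro ⟨z, A⟩ _ ⟨z', A'⟩ _ h
      simp only [Prod.mk.injEq] at h
      obtain ⟨rfl, rfl⟩ := h
      rfl
  have h2 : (∑ z ∈ D, (edg F z : ℝ)) ≤ ∑ i : Fin k, (bd D (U i) : ℝ) := by exact_mod_cast h1
  refine h2.trans ((sum_le_sum fun i _ => bd_real D (U i) fun A x _ => hU i A x).trans ?_)
  rw [sum_const, card_univ, Fintype.card_fin, nsmul_eq_mul]

/-- The powers of the size of the classes. -/
theorem sqrt_cls (hd : 1 ≤ d) (j : ℕ) (hj : j ≤ d) :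
    Real.sqrt (cls d N j).card ≤ (d : ℝ) ^ d * Real.sqrt N ^ j := by
  have h1 : ((cls d N j).card : ℝ) ≤ (d : ℝ) ^ d * (N : ℝ) ^ j := by
    have h2 : (cls d N j).card ≤ d ^ d * N ^ j :=
      (card_cls d N j).trans (Nat.mul_le_mul_right _ (Nat.pow_le_pow_left hj _))
    exact_mod_cast h2
  have h3 : (1 : ℝ) ≤ (d : ℝ) ^ d := one_le_pow₀ (by exact_mod_cast hd)
  rw [Real.sqrt_le_left (by positivity)]
  calc ((cls d N j).card : ℝ) ≤ (d : ℝ) ^ d * (N : ℝ) ^ j := h1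
    _ ≤ (d : ℝ) ^ d * ((d : ℝ) ^ d * (N : ℝ) ^ j) := by
      have : (0 : ℝ) ≤ (d : ℝ) ^ d * (N : ℝ) ^ j := by positivity
      nlinarith
    _ = ((d : ℝ) ^ d * Real.sqrt N ^ j) ^ 2 := by
      have e : (Real.sqrt N ^ j) ^ 2 = (N : ℝ) ^ j := by
        rw [← pow_mul, mul_comm, pow_mul, Real.sq_sqrt (Nat.cast_nonneg _)]
      rw [mul_pow, e]
      ring

/-- Lower bound for the quotient. -/
theorem quot_ge (hm : 1 ≤ m) (hmN : m ≤ N) : (N : ℝ) / (2 * m) ≤ ((N / m : ℕ) : ℝ) := by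
  have hmR : (0 : ℝ) < m := by exact_mod_cast hm
  rw [div_le_iff₀ (by positivity)]
  have h1 : N < m * (N / m + 1) := Nat.lt_mul_div_succ N hm
  have h2 : 1 ≤ N / m := (Nat.one_le_div_iff (by omega)).2 hmN
  have h3 : N ≤ (N / m) * (2 * m) := by
    have : m * (N / m + 1) ≤ m * (2 * (N / m)) := Nat.mul_le_mul_left _ (by omega)
    calc N ≤ m * (2 * (N / m)) := by omega
      _ = _ := by ring
  exact_mod_cast h3

/-- One class. -/
theorem term_le (hm : 1 ≤ m) (hmN : m ≤ N) {j : ℕ} (hj1 : 1 ≤ j) (hj : j ≤ d) {E c : ℝ}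
    (hc : 0 ≤ c) (hE : E ≤ c * Real.sqrt N ^ j) :
    E / ((N / m : ℕ) : ℝ) ^ j ≤ c * ((2 * m : ℝ) ^ d / Real.sqrt N) := by
  have hmR : (1 : ℝ) ≤ m := by exact_mod_cast hm
  have hNR : (1 : ℝ) ≤ N := by exact_mod_cast (hm.trans hmN)
  have hs1 : 1 ≤ Real.sqrt N := by
    rw [Real.one_le_sqrt]
    exact hNR
  have hs0 : 0 < Real.sqrt N := by linarith
  have hq := quot_ge hm hmN
  have hq0 : (0 : ℝ) < N / (2 * m) := by positivity
  have h1 : (0 : ℝ) < ((N / m : ℕ) : ℝ) := lt_of_lt_of_le hq0 hq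
  have h2 : ((N : ℝ) / (2 * m)) ^ j ≤ ((N / m : ℕ) : ℝ) ^ j := pow_le_pow_left₀ hq0.le hq j
  rw [div_le_iff₀ (by positivity)]
  have h3 : Real.sqrt N ^ j ≤ (2 * m : ℝ) ^ d / Real.sqrt N * ((N : ℝ) / (2 * m)) ^ j := by
    rw [div_pow, div_mul_div_comm, le_div_iff₀ (by positivity)]
    have e1 : (N : ℝ) ^ j = Real.sqrt N ^ j * Real.sqrt N ^ j := by
      rw [← mul_pow, Real.mul_self_sqrt (by positivity)]
    have h4 : Real.sqrt N ≤ Real.sqrt N ^ j := by
      calc Real.sqrt N = Real.sqrt N ^ 1 := (pow_one _).symm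
        _ ≤ Real.sqrt N ^ j := pow_le_pow_right₀ hs1 hj1
    have h5 : (2 * m : ℝ) ^ j ≤ (2 * m : ℝ) ^ d := pow_le_pow_right₀ (by linarith) hj
    rw [e1]
    calc Real.sqrt N ^ j * (Real.sqrt N * (2 * (m : ℝ)) ^ j) ≤
        Real.sqrt N ^ j * (Real.sqrt N ^ j * (2 * (m : ℝ)) ^ d) := by gcongr
      _ = _ := by ring
  calc E ≤ c * Real.sqrt N ^ j := hE
    _ ≤ c * ((2 * m : ℝ) ^ d / Real.sqrt N * ((N : ℝ) / (2 * m)) ^ j) := by gcongr
    _ ≤ c * ((2 * m : ℝ) ^ d / Real.sqrt N * ((N / m : ℕ) : ℝ) ^ j) := by gcongr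
    _ = _ := by ring

/-- **Combinations of monotone families.** -/
theorem mono_main {k r : ℕ} (hd : 1 ≤ d) (hm : 1 ≤ m) (hmN : m ≤ N)
    (hr : ∀ B : Finset (Finset (Fin d → Fin m)), ¬ Good B → B.card ≤ r)
    (U : Fin k → Finset (Fin d → Fin N) → Prop)
    (hU : ∀ i A x, U i A → U i (insert x A)) (R : (Fin k → Prop) → Prop)
    {F S : Finset (Finset (Fin d → Fin N))} (hF : ∀ A, A ∈ F ↔ R fun i => U i A)
    (hSF : S ⊆ F) (hS : ¬ Good S) :
    (S.card : ℝ) ≤ r / 2 ^ (m ^ d) * F.card +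
      r * (k * ((d : ℝ) ^ (d + 1) * (2 * m) ^ d / 2 / Real.sqrt N)) * 2 ^ (N ^ d) := by
  have hn : 1 ≤ N / m := (Nat.one_le_div_iff (by omega)).2 hmN
  have h := relative (d := d) (N := N) (m := m) (n := N / m) (Nat.mul_div_le N m) hn hr hSF hS
  refine h.trans ?_
  have h1 : ∑ z, (edg F z : ℝ) / (((N / m : ℕ) : ℝ)) ^ wid z ≤
      k * ((d : ℝ) ^ (d + 1) * (2 * m) ^ d / 2 / Real.sqrt N) * 2 ^ (N ^ d) := by
    rw [sum_classes hd]
    have h2 : ∀ j ∈ Icc 1 d, (∑ z ∈ cls d N j, (edg F z : ℝ)) / (((N / m : ℕ) : ℝ)) ^ j ≤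
        (k * ((d : ℝ) ^ d / 2 * 2 ^ (N ^ d))) * ((2 * m : ℝ) ^ d / Real.sqrt N) := by
      intro j hj
      rw [mem_Icc] at hj
      refine term_le hm hmN hj.1 hj.2 (by positivity) ?_
      refine (edg_comb (cls d N j) U hU R F hF).trans ?_
      have h3 := sqrt_cls (N := N) hd j hj.2
      have h4 : Fintype.card (Fin d → Fin N) = N ^ d := by
        rw [Fintype.card_fun, Fintype.card_fin, Fintype.card_fin]
      rw [h4]
      calc (k : ℝ) * (Real.sqrt (cls d N j).card / 2 * 2 ^ (N ^ d)) ≤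
          k * ((d : ℝ) ^ d * Real.sqrt N ^ j / 2 * 2 ^ (N ^ d)) := by gcongr
        _ = _ := by ring
    refine (sum_le_sum h2).trans ?_
    rw [sum_const, Nat.card_Icc, nsmul_eq_mul, Nat.add_sub_cancel]
    exact le_of_eq (by ring)
  calc _ ≤ r / 2 ^ (m ^ d) * F.card +
        r * (k * ((d : ℝ) ^ (d + 1) * (2 * m) ^ d / 2 / Real.sqrt N) * 2 ^ (N ^ d)) := by
        gcongr
    _ = _ := by ring

end Pool.Agent.Q330.PHI
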