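import Pool.Agent.Q330.PHI.Mono
import Pool.Agent.TH635.PH.Thr
import Pool.Agent.TH635.BV.Thr2

/-!
# The relative form for the known densities
-/

set_option autoImplicit false

namespace Pool.Agent.Q330.PHI

open Finset

/-- The density above which the statement is known: `0` for `d = 1`, `0.3223` for `d = 2`, and
`(2^(d-1) - 1)/(2^d - 1)` for `d ≥ 3`. -/
noncomputable def threshold (d : ℕ) : ℝ :=
  if d = 2 then 3223 / 10000 else ((2 : ℝ) ^ (d - 1) - 1) / (2 ^ d - 1)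

theorem threshold_nonneg (d : ℕ) (hd : 1 ≤ d) : 0 ≤ threshold d := by
  unfold threshold
  split_ifs
  · norm_num
  · have h1 : (1 : ℝ) ≤ 2 ^ (d - 1) := one_le_pow₀ (by norm_num)
    have h2 : (1 : ℝ) < 2 ^ d := one_lt_pow₀ (by norm_num) (by omega)
    exact div_nonneg (by linarith) (by linarith)

theorem known (d : ℕ) (hd : 1 ≤ d) (δ : ℝ) (hδ : threshold d < δ) :
    ∃ N₀ : ℕ, ∀ N : ℕ, N₀ ≤ N → ∀ S : Finset (Finset (Fin d → Fin N)),
      δ * (2 : ℝ) ^ (N ^ d) < S.card → Good S := by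
  unfold threshold at hδ
  by_cases h : d = 2
  · subst h
    rw [if_pos rfl] at hδ
    exact Pool.Agent.TH635.BV.thr2 δ hδ
  · rw [if_neg h] at hδ
    exact Pool.Agent.TH635.PH.Thr.thr d hd δ hδ

/-- A bound for the families of subsets of a small cube which are not good. -/
theorem small_cube (d : ℕ) (hd : 1 ≤ d) (δ : ℝ) (hδ : threshold d < δ) :
    ∃ m r : ℕ, 1 ≤ m ∧ (∀ B : Finset (Finset (Fin d → Fin m)), ¬ Good B → B.card ≤ r) ∧
      (r : ℝ) / 2 ^ (m ^ d) ≤ δ := by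
  obtain ⟨N₀, hN₀⟩ := known d hd δ hδ
  have hδ0 : 0 ≤ δ := (threshold_nonneg d hd).trans hδ.le
  refine ⟨N₀ + 1, ⌊δ * 2 ^ ((N₀ + 1) ^ d)⌋₊, by omega, fun B hB => ?_, ?_⟩
  · rw [Nat.le_floor_iff (by positivity)]
    by_contra hcon
    push Not at hcon
    exact hB (hN₀ (N₀ + 1) (by omega) B hcon)
  · rw [div_le_iff₀ (by positivity)]
    exact Nat.floor_le (by positivity)

/-- **Combinations of monotone families, known densities.** -/
theorem mono_known (d : ℕ) (hd : 1 ≤ d) (δ : ℝ) (hδ : threshold d < δ) :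
    ∃ C : ℝ, ∀ (N k : ℕ), 1 ≤ N → ∀ (U : Fin k → Finset (Fin d → Fin N) → Prop),
      (∀ i A x, U i A → U i (insert x A)) → ∀ (R : (Fin k → Prop) → Prop)
      (F S : Finset (Finset (Fin d → Fin N))), (∀ A, A ∈ F ↔ R fun i => U i A) → S ⊆ F →
      δ * F.card + C * (k + 1) / Real.sqrt N * 2 ^ (N ^ d) < S.card → Good S := by
  obtain ⟨m, r, hm, hr, hrδ⟩ := small_cube d hd δ hδ
  obtain ⟨C₁, hC₁⟩ : ∃ C₁ : ℝ, C₁ = r * ((d : ℝ) ^ (d + 1) * (2 * m) ^ d / 2) := ⟨_, rfl⟩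
  have hC₁0 : 0 ≤ C₁ := by rw [hC₁]; positivity
  have hδ0 : 0 ≤ δ := (threshold_nonneg d hd).trans hδ.le
  refine ⟨C₁ + m, fun N k hN U hU R F S hF hSF hS => ?_⟩
  have hNR : (1 : ℝ) ≤ N := by exact_mod_cast hN
  have hs : 0 < Real.sqrt N := Real.sqrt_pos.2 (by linarith)
  by_contra hcon
  rcases Nat.lt_or_ge N m with hNm | hNm
  · -- the error term is too large
    have h1 : (S.card : ℝ) ≤ 2 ^ (N ^ d) := by
      have h2 := card_le_univ S
      rw [Fintype.card_finset, Fintype.card_fun, Fintype.card_fin, Fintype.card_fin] at h2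
      exact_mod_cast h2
    have h3 : Real.sqrt N ≤ m := by
      rw [Real.sqrt_le_left (by positivity)]
      have h4 : (N : ℝ) ≤ m := by exact_mod_cast hNm.le
      nlinarith
    have h5 : 1 ≤ (C₁ + m) * (k + 1) / Real.sqrt N := by
      rw [le_div_iff₀ hs, one_mul]
      have hk : (0 : ℝ) ≤ k := Nat.cast_nonneg _
      have hmR : (0 : ℝ) ≤ m := Nat.cast_nonneg _
      nlinarith [mul_nonneg hC₁0 hk, mul_nonneg hmR hk]
    have h6 : (0 : ℝ) ≤ δ * F.card := by positivity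
    have h7 : (2 : ℝ) ^ (N ^ d) ≤ (C₁ + m) * (k + 1) / Real.sqrt N * 2 ^ (N ^ d) :=
      le_mul_of_one_le_left (by positivity) h5
    linarith
  · have h := mono_main hd hm hNm hr U hU R hF hSF hcon
    have h1 : (r : ℝ) / 2 ^ (m ^ d) * F.card ≤ δ * F.card := by gcongr
    have h2 : (r : ℝ) * (k * ((d : ℝ) ^ (d + 1) * (2 * m) ^ d / 2 / Real.sqrt N)) ≤
        (C₁ + m) * (k + 1) / Real.sqrt N := by
      have e : (r : ℝ) * (k * ((d : ℝ) ^ (d + 1) * (2 * m) ^ d / 2 / Real.sqrt N)) =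
          C₁ * k / Real.sqrt N := by rw [hC₁]; ring
      rw [e]
      have hk : (0 : ℝ) ≤ k := Nat.cast_nonneg _
      have hmR : (0 : ℝ) ≤ m := Nat.cast_nonneg _
      gcongr
      · linarith
      · linarith
    have h3 : (r : ℝ) * (k * ((d : ℝ) ^ (d + 1) * (2 * m) ^ d / 2 / Real.sqrt N)) *
        2 ^ (N ^ d) ≤ (C₁ + m) * (k + 1) / Real.sqrt N * 2 ^ (N ^ d) := by gcongr
    linarith

end Pool.Agent.Q330.PHI
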