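import Pool.Agent.Q330.PHI.Half

/-!
# The parity family on the diagonal
-/

set_option autoImplicit false

namespace Pool.Agent.Q330.PHI

open Finset

/-- The diagonal of `[N]^d`: the `N` points `(a, …, a)`. -/
def diagonal (d N : ℕ) : Finset (Fin d → Fin N) :=
  univ.image (fun a : Fin N => fun _ : Fin d => a)

theorem card_diagonal {d : ℕ} (hd : 1 ≤ d) (N : ℕ) : (diagonal d N).card = N := by
  have hinj : Function.Injective (fun a : Fin N => fun _ : Fin d => a) := fun a b h =>
    congrFun h ⟨0, hd⟩
  rw [diagonal, card_image_of_injective _ hinj, card_univ, Fintype.card_fin]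

/-- The points of the diagonal. -/
def dpt (d t : ℕ) (i : ℕ) : Fin d → Fin (2 ^ t) := fun _ => ⟨i % 2 ^ t, Nat.mod_lt _ (Nat.two_pow_pos t)⟩

theorem cnt_insert {d t : ℕ} (hd : 1 ≤ d) (A : Finset (Fin d → Fin (2 ^ t))) (a : Fin (2 ^ t))
    (ha : (fun _ => a) ∉ A) : cnt (dpt d t) t 0 (insert (fun _ => a) A) = cnt (dpt d t) t 0 A + 1 := by
  unfold cnt
  have h1 : ∀ i ∈ range (2 ^ t), (if dpt d t (0 + i) ∈ insert (fun _ => a) A then 1 else 0) =
      (if dpt d t (0 + i) ∈ A then 1 else 0) + (if i = (a : ℕ) then 1 else 0) := by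
    intro i hi
    rw [mem_range] at hi
    have h2 : dpt d t (0 + i) = (fun _ => a) ↔ i = (a : ℕ) := by
      rw [zero_add]
      unfold dpt
      constructor
      · intro h
        have h3 := congrArg Fin.val (congrFun h ⟨0, hd⟩)
        simp only at h3
        rw [Nat.mod_eq_of_lt hi] at h3
        exact h3
      · intro h
        funext s
        apply Fin.ext
        simp only
        rw [Nat.mod_eq_of_lt hi, h]
    by_cases hia : i = (a : ℕ)
    · have h3 := h2.2 hia
      rw [h3, if_pos hia, if_neg ha, if_pos (mem_insert_self _ _)]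
    · have h3 : ¬ dpt d t (0 + i) = (fun _ => a) := fun h => hia (h2.1 h)
      rw [if_neg hia, add_zero]
      by_cases h4 : dpt d t (0 + i) ∈ A
      · rw [if_pos h4, if_pos (mem_insert_of_mem h4)]
      · rw [if_neg h4, if_neg]
        intro h5
        rcases mem_insert.1 h5 with h6 | h6
        · exact h3 h6
        · exact h4 h6
  rw [sum_congr rfl h1, sum_add_distrib]
  congr 1
  rw [sum_ite_eq' (range (2 ^ t)) (a : ℕ) (fun _ => 1), if_pos (mem_range.2 a.2)]

theorem cnt_flip {d t : ℕ} (hd : 1 ≤ d) (A : Finset (Fin d → Fin (2 ^ t))) (a : Fin (2 ^ t)) :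
    cnt (dpt d t) t 0 (flip A fun _ => a) % 2 ≠ cnt (dpt d t) t 0 A % 2 := by
  by_cases h : (fun _ => a) ∈ A
  · have h1 := cnt_insert hd (A.erase fun _ => a) a (notMem_erase _ _)
    rw [insert_erase h] at h1
    rw [flip_of_mem h]
    omega
  · have h1 := cnt_insert hd A a h
    rw [flip_of_notMem h]
    omega

open Classical in
/-- The family of the sets with an even number of points on the diagonal. -/
noncomputable def evens (d t : ℕ) : Finset (Finset (Fin d → Fin (2 ^ t))) :=
  univ.filter fun A => (parity (dpt d t) t 0 false).Val A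

theorem mem_evens {d t : ℕ} (A : Finset (Fin d → Fin (2 ^ t))) :
    A ∈ evens d t ↔ cnt (dpt d t) t 0 A % 2 = 0 := by
  unfold evens
  simp only [mem_filter, mem_univ, true_and]
  exact (parity_val (dpt d t) A t 0).2

theorem card_evens {d : ℕ} (hd : 1 ≤ d) (t : ℕ) :
    2 * (evens d t).card = 2 ^ ((2 ^ t) ^ d) := by
  classical
  have h1 : (univ \ evens d t).card + (evens d t).card = 2 ^ ((2 ^ t) ^ d) := by
    rw [card_sdiff_add_card_eq_card (subset_univ _), card_univ, Fintype.card_finset,
      Fintype.card_fun, Fintype.card_fin, Fintype.card_fin]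
  let a : Fin (2 ^ t) := ⟨0, Nat.two_pow_pos t⟩
  have h2 : (evens d t).card = (univ \ evens d t).card := by
    refine card_nbij' (fun A => flip A fun _ => a) (fun A => flip A fun _ => a) ?_ ?_ ?_ ?_
    · intro A hA
      rw [mem_coe, mem_evens] at hA
      rw [mem_coe, mem_sdiff, mem_evens]
      refine ⟨mem_univ _, fun h => cnt_flip hd A a (h.trans hA.symm)⟩
    · intro A hA
      rw [mem_coe, mem_sdiff, mem_evens] at hA
      rw [mem_coe, mem_evens]
      have h3 := cnt_flip hd A a
      have h4 := hA.2
      simp only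
      omega
    · intro A _
      exact flip_flip A _
    · intro A _
      exact flip_flip A _
  omega

end Pool.Agent.Q330.PHI
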