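import Mathlib

/-!
# Families with few boundary edges: restriction to random small cubes
-/

set_option autoImplicit false

namespace Pool.Agent.Q330.PHI

open Finset

/-- The family `S` of subsets of `[N]^d` is good. -/
def Good {N d : ℕ} (S : Finset (Finset (Fin d → Fin N))) : Prop :=
  ∃ A ∈ S, ∃ γ : Finset (Fin N), γ.Nonempty ∧
    Disjoint A (Fintype.piFinset fun _ : Fin d => γ) ∧
    A ∪ Fintype.piFinset (fun _ : Fin d => γ) ∈ S

variable {d N m n : ℕ}

/-! ### The embeddings -/

/-- The `i`-th element of the random set. -/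
def pos (h : m * n ≤ N) (f : Fin m → Fin n) (i : Fin m) : Fin N :=
  ⟨i * n + f i, by
    have h1 := i.2
    have h2 := (f i).2
    calc (i : ℕ) * n + f i < i * n + n := by omega
      _ = (i + 1) * n := by ring
      _ ≤ m * n := Nat.mul_le_mul_right _ h1
      _ ≤ N := h⟩

theorem pos_div (h : m * n ≤ N) (f : Fin m → Fin n) (i : Fin m) : (pos h f i : ℕ) / n = i := by
  have h2 := (f i).2
  have hn : 0 < n := by omega
  change ((i : ℕ) * n + f i) / n = i
  rw [mul_comm, Nat.mul_add_div hn, Nat.div_eq_of_lt h2, add_zero]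

theorem pos_mod (h : m * n ≤ N) (f : Fin m → Fin n) (i : Fin m) : (pos h f i : ℕ) % n = f i := by
  have h2 := (f i).2
  change ((i : ℕ) * n + f i) % n = f i
  rw [mul_comm, Nat.mul_add_mod, Nat.mod_eq_of_lt h2]

theorem pos_inj (h : m * n ≤ N) (f : Fin m → Fin n) : Function.Injective (pos h f) := by
  intro i j hij
  apply Fin.ext
  rw [← pos_div h f i, ← pos_div h f j, hij]

/-- The map of the cells. -/
def cell (h : m * n ≤ N) (f : Fin m → Fin n) : (Fin d → Fin m) ↪ (Fin d → Fin N) :=
  ⟨fun c t => pos h f (c t), fun c c' hc => funext fun t => pos_inj h f (congrFun hc t)⟩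

theorem cell_apply (h : m * n ≤ N) (f : Fin m → Fin n) (c : Fin d → Fin m) (t : Fin d) :
    cell h f c t = pos h f (c t) := rfl

/-- The cells of the random set. -/
def rng (h : m * n ≤ N) (f : Fin m → Fin n) : Finset (Fin d → Fin N) :=
  univ.map (cell h f)

/-- The part of `S` above `B`. -/
def sec (h : m * n ≤ N) (f : Fin m → Fin n) (S : Finset (Finset (Fin d → Fin N)))
    (B : Finset (Fin d → Fin N)) : Finset (Finset (Fin d → Fin m)) :=
  univ.filter fun C => B ∪ C.map (cell h f) ∈ S

theorem mem_sec (h : m * n ≤ N) (f : Fin m → Fin n) (S : Finset (Finset (Fin d → Fin N)))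
    (B : Finset (Fin d → Fin N)) (C : Finset (Fin d → Fin m)) :
    C ∈ sec h f S B ↔ B ∪ C.map (cell h f) ∈ S := by
  unfold sec
  rw [mem_filter]
  exact and_iff_right (mem_univ _)

theorem map_piFinset (h : m * n ≤ N) (f : Fin m → Fin n) (γ : Finset (Fin m)) :
    (Fintype.piFinset fun _ : Fin d => γ).map (cell h f) =
      Fintype.piFinset fun _ : Fin d => γ.map ⟨pos h f, pos_inj h f⟩ := by
  ext c
  simp only [mem_map, Fintype.mem_piFinset, Function.Embedding.coeFn_mk]
  constructor
  · rintro ⟨c', hc', rfl⟩ t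
    exact ⟨c' t, hc' t, rfl⟩
  · intro hc
    choose c' hc1 hc2 using hc
    exact ⟨c', hc1, funext hc2⟩

/-- Sections of families which are not good are not good. -/
theorem sec_not_good (h : m * n ≤ N) (f : Fin m → Fin n) {S : Finset (Finset (Fin d → Fin N))}
    (hS : ¬ Good S) {B : Finset (Fin d → Fin N)} (hB : Disjoint B (rng h f)) :
    ¬ Good (sec h f S B) := by
  rintro ⟨A, hA, γ, hγ, hd, hu⟩
  apply hS
  rw [mem_sec] at hA hu
  refine ⟨_, hA, γ.map ⟨pos h f, pos_inj h f⟩, hγ.map, ?_, ?_⟩
  · rw [← map_piFinset, disjoint_union_left]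
    refine ⟨disjoint_of_subset_right ?_ hB, (disjoint_map _).2 hd⟩
    unfold rng
    exact map_subset_map.2 (subset_univ _)
  · rw [← map_piFinset, union_assoc, ← map_union]
    exact hu

/-- Counting by sections. -/
theorem card_sections (h : m * n ≤ N) (f : Fin m → Fin n)
    (S : Finset (Finset (Fin d → Fin N))) :
    S.card = ∑ B ∈ (univ \ rng h f).powerset, (sec h f S B).card := by
  rw [← card_sigma]
  refine card_nbij' (fun A => ⟨A \ rng h f, univ.filter fun c => cell h f c ∈ A⟩)
    (fun q => q.1 ∪ q.2.map (cell h f)) ?_ ?_ ?_ ?_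
  · intro A hA
    rw [mem_coe] at hA
    rw [mem_coe, mem_sigma]
    refine ⟨mem_powerset.2 (sdiff_subset_sdiff (subset_univ _) Subset.rfl), ?_⟩
    rw [mem_sec]
    have : A \ rng h f ∪ (univ.filter fun c => cell h f c ∈ A).map (cell h f) = A := by
      ext c
      simp only [mem_union, mem_sdiff, mem_map, mem_filter, mem_univ, true_and, rng]
      constructor
      · rintro (⟨h1, -⟩ | ⟨c', h1, rfl⟩)
        · exact h1
        · exact h1
      · intro h1
        by_cases h2 : ∃ c', cell h f c' = c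
        · obtain ⟨c', rfl⟩ := h2
          exact Or.inr ⟨c', h1, rfl⟩
        · exact Or.inl ⟨h1, h2⟩
    rw [this]
    exact hA
  · rintro ⟨B, C⟩ hq
    rw [mem_coe, mem_sigma] at hq
    rw [mem_coe]
    exact (mem_sec h f S B C).1 hq.2
  · intro A _
    simp only
    ext c
    simp only [mem_union, mem_sdiff, mem_map, mem_filter, mem_univ, true_and, rng]
    constructor
    · rintro (⟨h1, -⟩ | ⟨c', h1, rfl⟩)
      · exact h1
      · exact h1
    · intro h1
      by_cases h2 : ∃ c', cell h f c' = c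
      · obtain ⟨c', rfl⟩ := h2
        exact Or.inr ⟨c', h1, rfl⟩
      · exact Or.inl ⟨h1, h2⟩
  · rintro ⟨B, C⟩ hq
    rw [mem_coe, mem_sigma, mem_powerset] at hq
    have hB : ∀ c ∈ B, ¬ ∃ c', cell h f c' = c := by
      intro c hc
      have := hq.1 hc
      simp only [mem_sdiff, mem_univ, true_and, rng, mem_map] at this
      exact this
    have e1 : (B ∪ C.map (cell h f)) \ rng h f = B := by
      ext c
      simp only [mem_union, mem_sdiff, mem_map, mem_univ, true_and, rng]
      constructor
      · rintro ⟨h1 | ⟨c', h1, rfl⟩, h2⟩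
        · exact h1
        · exact absurd ⟨c', rfl⟩ h2
      · intro h1
        exact ⟨Or.inl h1, hB c h1⟩
    have e2 : (univ.filter fun c => cell h f c ∈ B ∪ C.map (cell h f)) = C := by
      ext c
      simp only [mem_filter, mem_univ, true_and, mem_union, mem_map]
      constructor
      · rintro (h1 | ⟨c', h1, h2⟩)
        · exact absurd ⟨c, rfl⟩ (hB _ h1)
        · rw [← (cell h f).injective h2]
          exact h1
      · intro h1
        exact Or.inr ⟨c, h1, rfl⟩
    simp only [e1, e2]

/-! ### Boundary edges -/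

open Classical in
/-- The number of the boundary edges of `F` in the direction `y`. -/
noncomputable def edg {X : Type} [Fintype X] [DecidableEq X] (F : Finset (Finset X)) (y : X) : ℕ :=
  (univ.filter fun A : Finset X => y ∉ A ∧ ¬ (A ∈ F ↔ insert y A ∈ F)).card

/-- A family without boundary edges is empty or full. -/
theorem exists_edge {X : Type} [Fintype X] [DecidableEq X] (G : Finset (Finset X))
    (h1 : G.Nonempty) (h2 : G ≠ univ) :
    ∃ (C : Finset X) (y : X), y ∉ C ∧ ¬ (C ∈ G ↔ insert y C ∈ G) := by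
  by_contra hcon
  push Not at hcon
  have key : ∀ C : Finset X, C ∈ G ↔ ∅ ∈ G := by
    intro C
    induction C using Finset.induction_on with
    | empty => exact Iff.rfl
    | insert a s ha ih => rw [← hcon s a ha, ih]
  obtain ⟨C, hC⟩ := h1
  apply h2
  ext D
  rw [key D]
  exact ⟨fun _ => mem_univ _, fun _ => (key C).1 hC⟩

open Classical in
/-- The sets `B` for which the section of `F` is neither empty nor full. -/
noncomputable def mixed (h : m * n ≤ N) (f : Fin m → Fin n) (F : Finset (Finset (Fin d → Fin N))) :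
    Finset (Finset (Fin d → Fin N)) :=
  (univ \ rng h f).powerset.filter fun B => (sec h f F B).Nonempty ∧ sec h f F B ≠ univ

theorem mixed_le (h : m * n ≤ N) (f : Fin m → Fin n) (F : Finset (Finset (Fin d → Fin N))) :
    (mixed h f F).card ≤ ∑ y : Fin d → Fin m, edg F (cell h f y) := by
  classical
  unfold edg
  rw [← card_sigma]
  have hex : ∀ B ∈ mixed h f F, ∃ (C : Finset (Fin d → Fin m)) (y : Fin d → Fin m),
      y ∉ C ∧ ¬ (C ∈ sec h f F B ↔ insert y C ∈ sec h f F B) := by
    intro B hB
    have hB' := (mem_filter.1 hB).2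
    exact exists_edge _ hB'.1 hB'.2
  have hBr : ∀ B ∈ mixed h f F, ∀ c ∈ B, ¬ ∃ c', cell h f c' = c := by
    intro B hB c hc
    have := mem_powerset.1 (mem_filter.1 hB).1 hc
    simp only [mem_sdiff, mem_univ, true_and, rng, mem_map] at this
    exact this
  choose C y hy hCy using hex
  rw [← card_attach]
  refine card_le_card_of_injOn (fun B => ⟨y B.1 B.2, B.1 ∪ (C B.1 B.2).map (cell h f)⟩) ?_ ?_
  · rintro ⟨B, hB⟩ -
    rw [mem_coe, mem_sigma, mem_filter]
    refine ⟨mem_univ _, mem_univ _, ?_, ?_⟩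
    · rw [mem_union, mem_map]
      rintro (h1 | ⟨c', h1, h2⟩)
      · exact hBr B hB _ h1 ⟨_, rfl⟩
      · rw [(cell h f).injective h2] at h1
        exact hy B hB h1
    · have h1 := hCy B hB
      rw [mem_sec, mem_sec, map_insert, ← insert_union_distrib'] at h1
      exact h1
  · rintro ⟨B, hB⟩ - ⟨B', hB'⟩ - hBB
    have h1 : B ∪ (C B hB).map (cell h f) = B' ∪ (C B' hB').map (cell h f) := by
      have := congrArg (fun q : (_ : Fin d → Fin m) × Finset (Fin d → Fin N) => q.2) hBB
      exact this
    have e : ∀ D ∈ mixed h f F, ∀ E : Finset (Fin d → Fin m),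
        (D ∪ E.map (cell h f)).filter (fun c => ¬ ∃ c', cell h f c' = c) = D := by
      intro D hD E
      ext c
      rw [mem_filter, mem_union, mem_map]
      constructor
      · rintro ⟨h2 | ⟨c', -, rfl⟩, h3⟩
        · exact h2
        · exact absurd ⟨c', rfl⟩ h3
      · intro h2
        exact ⟨Or.inl h2, hBr D hD c h2⟩
    apply Subtype.ext
    change B = B'
    rw [← e B hB (C B hB), h1, e B' hB' (C B' hB')]
where
  insert_union_distrib' {X : Type} [DecidableEq X] {a : X} {s t : Finset X} :
      insert a (s ∪ t) = s ∪ insert a t := by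
    rw [union_insert]

/-- The sections. -/
theorem card_le (h : m * n ≤ N) (f : Fin m → Fin n) {r : ℕ}
    (hr : ∀ B : Finset (Finset (Fin d → Fin m)), ¬ Good B → B.card ≤ r)
    {F S : Finset (Finset (Fin d → Fin N))} (hSF : S ⊆ F) (hS : ¬ Good S) :
    2 ^ (m ^ d) * S.card ≤ r * F.card + 2 ^ (m ^ d) * (r * (mixed h f F).card) := by
  classical
  rw [card_sections h f S, card_sections h f F, mul_sum, mul_sum]
  have h1 : ∀ B ∈ (univ \ rng h f).powerset, 2 ^ (m ^ d) * (sec h f S B).card ≤
      r * (sec h f F B).card + if B ∈ mixed h f F then 2 ^ (m ^ d) * r else 0 := by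
    intro B hB
    have hd : Disjoint B (rng h f) := by
      rw [mem_powerset] at hB
      rw [Finset.disjoint_left]
      intro c hc
      exact (mem_sdiff.1 (hB hc)).2
    have h2 : (sec h f S B).card ≤ r := hr _ (sec_not_good h f hS hd)
    by_cases hne : (sec h f F B).Nonempty
    · by_cases hu : sec h f F B = univ
      · have h3 : (sec h f F B).card = 2 ^ (m ^ d) := by
          rw [hu, card_univ, Fintype.card_finset, Fintype.card_fun, Fintype.card_fin,
            Fintype.card_fin]
        rw [h3]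
        calc 2 ^ (m ^ d) * (sec h f S B).card ≤ 2 ^ (m ^ d) * r := Nat.mul_le_mul_left _ h2
          _ = r * 2 ^ (m ^ d) := mul_comm _ _
          _ ≤ _ := Nat.le_add_right _ _
      · have hmx : B ∈ mixed h f F := by
          unfold mixed
          exact mem_filter.2 ⟨hB, hne, hu⟩
        rw [if_pos hmx]
        calc 2 ^ (m ^ d) * (sec h f S B).card ≤ 2 ^ (m ^ d) * r := Nat.mul_le_mul_left _ h2
          _ ≤ _ := Nat.le_add_left _ _
    · have h3 : sec h f S B = ∅ := by
        rw [not_nonempty_iff_eq_empty] at hne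
        refine eq_empty_of_forall_notMem fun C hC => ?_
        have : C ∈ sec h f F B := (mem_sec h f F B C).2 (hSF ((mem_sec h f S B C).1 hC))
        rw [hne] at this
        exact absurd this (notMem_empty _)
      rw [h3, card_empty, mul_zero]
      exact Nat.zero_le _
  refine (sum_le_sum h1).trans ?_
  rw [sum_add_distrib]
  refine Nat.add_le_add_left ?_ _
  rw [← sum_filter]
  have h2 : (univ \ rng h f).powerset.filter (fun B => B ∈ mixed h f F) = mixed h f F := by
    ext B
    rw [mem_filter]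
    exact ⟨fun h => h.2, fun h => ⟨(mem_filter.1 h).1, h⟩⟩
  rw [h2, sum_const, smul_eq_mul]
  exact le_of_eq (by ring)

/-! ### Averaging -/

/-- The number of the distinct coordinates. -/
def wid (z : Fin d → Fin N) : ℕ := (univ.image z).card

open Classical in
theorem count_pairs (h : m * n ≤ N) (z : Fin d → Fin N) :
    (univ.filter fun q : (Fin m → Fin n) × (Fin d → Fin m) => cell h q.1 q.2 = z).card *
      n ^ wid z ≤ n ^ m := by
  rcases (univ.filter fun q : (Fin m → Fin n) × (Fin d → Fin m) =>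
    cell h q.1 q.2 = z).eq_empty_or_nonempty with he | ⟨⟨f0, y0⟩, hq0⟩
  · rw [he, card_empty, zero_mul]
    exact Nat.zero_le _
  rw [mem_filter] at hq0
  have hz0 : cell h f0 y0 = z := hq0.2
  -- the second component is determined
  have hy : ∀ f y, cell h f y = z → y = y0 := by
    intro f y hz
    funext t
    apply Fin.ext
    rw [← pos_div h f (y t), ← pos_div h f0 (y0 t), ← cell_apply, ← cell_apply, hz, hz0]
  have hf : ∀ f y, cell h f y = z → ∀ i ∈ univ.image y0, f i = f0 i := by
    intro f y hz i hi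
    obtain ⟨t, -, rfl⟩ := mem_image.1 hi
    have hyy := hy f y hz
    subst hyy
    apply Fin.ext
    rw [← pos_mod h f (y t), ← pos_mod h f0 (y t), ← cell_apply, ← cell_apply, hz, hz0]
  have hw : wid z = (univ.image y0).card := by
    unfold wid
    rw [← hz0]
    have : (univ.image (cell h f0 y0)) = (univ.image y0).image (pos h f0) := by
      rw [image_image]
      rfl
    rw [this, card_image_of_injective _ (pos_inj h f0)]
  set J := univ.image y0 with hJ
  have hJm : J.card ≤ m := by
    have := card_le_univ J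
    rw [Fintype.card_fin] at this
    exact this
  have hcard : (univ.filter fun q : (Fin m → Fin n) × (Fin d → Fin m) =>
      cell h q.1 q.2 = z).card ≤ n ^ (m - J.card) := by
    have e : n ^ (m - J.card) = Fintype.card ({i : Fin m // i ∉ J} → Fin n) := by
      rw [Fintype.card_fun, Fintype.card_fin, Fintype.card_subtype_compl, Fintype.card_fin,
        Fintype.card_coe]
    rw [e, ← card_univ]
    refine card_le_card_of_injOn (fun q i => q.1 i.1) (fun _ _ => mem_coe.2 (mem_univ _)) ?_
    rintro ⟨f, y⟩ hq ⟨f', y'⟩ hq' hqq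
    rw [mem_coe, mem_filter] at hq hq'
    have h1 : y = y' := (hy f y hq.2).trans (hy f' y' hq'.2).symm
    have h2 : f = f' := by
      funext i
      by_cases hi : i ∈ J
      · rw [hf f y hq.2 i hi, hf f' y' hq'.2 i hi]
      · exact congrFun hqq ⟨i, hi⟩
    rw [h1, h2]
  rw [hw]
  calc _ ≤ n ^ (m - J.card) * n ^ J.card := Nat.mul_le_mul_right _ hcard
    _ = n ^ m := by rw [← pow_add, Nat.sub_add_cancel hJm]

/-- There is a set with few mixed sections. -/
theorem exists_few (h : m * n ≤ N) (hn : 1 ≤ n) (F : Finset (Finset (Fin d → Fin N))) :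
    ∃ f : Fin m → Fin n, ((mixed h f F).card : ℝ) ≤ ∑ z, (edg F z : ℝ) / (n : ℝ) ^ wid z := by
  classical
  have hnR : (0 : ℝ) < n := by exact_mod_cast hn
  by_contra hcon
  push Not at hcon
  have hne : Nonempty (Fin m → Fin n) := ⟨fun _ => ⟨0, hn⟩⟩
  have h1 : ∑ _f : Fin m → Fin n, ∑ z, (edg F z : ℝ) / (n : ℝ) ^ wid z <
      ∑ f : Fin m → Fin n, ((mixed h f F).card : ℝ) :=
    sum_lt_sum_of_nonempty univ_nonempty fun f _ => hcon f
  have h2 : ∑ f : Fin m → Fin n, ((mixed h f F).card : ℝ) ≤
      ∑ f : Fin m → Fin n, ∑ y : Fin d → Fin m, (edg F (cell h f y) : ℝ) := by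
    refine sum_le_sum fun f _ => ?_
    exact_mod_cast mixed_le h f F
  have h3 : ∑ f : Fin m → Fin n, ∑ y : Fin d → Fin m, (edg F (cell h f y) : ℝ) =
      ∑ z : Fin d → Fin N, (edg F z : ℝ) *
        ((univ.filter fun q : (Fin m → Fin n) × (Fin d → Fin m) =>
          cell h q.1 q.2 = z).card : ℝ) := by
    rw [← Fintype.sum_prod_type' (fun f y => (edg F (cell h f y) : ℝ))]
    rw [← sum_fiberwise (univ : Finset ((Fin m → Fin n) × (Fin d → Fin m)))
      (fun q => cell h q.1 q.2) (fun q => (edg F (cell h q.1 q.2) : ℝ))]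
    refine sum_congr rfl fun z _ => ?_
    have : ∑ q ∈ univ.filter (fun q : (Fin m → Fin n) × (Fin d → Fin m) => cell h q.1 q.2 = z),
        (edg F (cell h q.1 q.2) : ℝ) =
        ∑ q ∈ univ.filter (fun q : (Fin m → Fin n) × (Fin d → Fin m) => cell h q.1 q.2 = z),
          (edg F z : ℝ) := sum_congr rfl fun q hq => by rw [(mem_filter.1 hq).2]
    rw [this, sum_const, nsmul_eq_mul, mul_comm]
  have h4 : ∀ z : Fin d → Fin N, (edg F z : ℝ) *
      ((univ.filter fun q : (Fin m → Fin n) × (Fin d → Fin m) =>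
        cell h q.1 q.2 = z).card : ℝ) ≤ (n : ℝ) ^ m * ((edg F z : ℝ) / (n : ℝ) ^ wid z) := by
    intro z
    have h5 := count_pairs h z
    have h6 : ((univ.filter fun q : (Fin m → Fin n) × (Fin d → Fin m) =>
        cell h q.1 q.2 = z).card : ℝ) * (n : ℝ) ^ wid z ≤ (n : ℝ) ^ m := by exact_mod_cast h5
    have h7 : (0 : ℝ) < (n : ℝ) ^ wid z := by positivity
    rw [mul_div_assoc', le_div_iff₀ h7]
    calc _ = (edg F z : ℝ) * (((univ.filter fun q : (Fin m → Fin n) × (Fin d → Fin m) =>
        cell h q.1 q.2 = z).card : ℝ) * (n : ℝ) ^ wid z) := by ring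
      _ ≤ (edg F z : ℝ) * (n : ℝ) ^ m := by gcongr
      _ = _ := mul_comm _ _
  have h5 : ∑ f : Fin m → Fin n, ∑ y : Fin d → Fin m, (edg F (cell h f y) : ℝ) ≤
      (n : ℝ) ^ m * ∑ z, (edg F z : ℝ) / (n : ℝ) ^ wid z := by
    rw [h3, mul_sum]
    exact sum_le_sum fun z _ => h4 z
  have h6 : ∑ _f : Fin m → Fin n, ∑ z, (edg F z : ℝ) / (n : ℝ) ^ wid z =
      (n : ℝ) ^ m * ∑ z, (edg F z : ℝ) / (n : ℝ) ^ wid z := by
    rw [sum_const, card_univ, Fintype.card_fun, Fintype.card_fin, Fintype.card_fin, nsmul_eq_mul]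
    push_cast
    ring
  linarith

/-- **The relative form for families with few boundary edges.** -/
theorem relative (h : m * n ≤ N) (hn : 1 ≤ n) {r : ℕ}
    (hr : ∀ B : Finset (Finset (Fin d → Fin m)), ¬ Good B → B.card ≤ r)
    {F S : Finset (Finset (Fin d → Fin N))} (hSF : S ⊆ F) (hS : ¬ Good S) :
    (S.card : ℝ) ≤ r / 2 ^ (m ^ d) * F.card + r * ∑ z, (edg F z : ℝ) / (n : ℝ) ^ wid z := by
  obtain ⟨f, hf⟩ := exists_few h hn F
  have h1 := card_le h f hr hSF hS
  have h2 : (2 : ℝ) ^ (m ^ d) * S.card ≤ r * F.card + 2 ^ (m ^ d) * (r * (mixed h f F).card) := by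
    exact_mod_cast h1
  have h3 : (0 : ℝ) < 2 ^ (m ^ d) := by positivity
  have h4 : (S.card : ℝ) ≤ r / 2 ^ (m ^ d) * F.card + r * (mixed h f F).card := by
    have e : (r / 2 ^ (m ^ d) * F.card + r * (mixed h f F).card : ℝ) =
        (r * F.card + 2 ^ (m ^ d) * (r * (mixed h f F).card)) / 2 ^ (m ^ d) := by
      field_simp
    rw [e, le_div_iff₀ h3, mul_comm]
    exact h2
  refine h4.trans ?_
  gcongr

end Pool.Agent.Q330.PHI
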